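import Pool.Agent.K1H79.GE.StmA
import Pool.Agent.K1H79.RF.Stm3
import Pool.Agent.R362.HkCls

/-! # 3-torsion for the fields of degree `2^k`: statements of the pieces

Owner helper79. -/

set_option autoImplicit false

namespace Pool.Agent.K1H79.GE

open NumberField
open scoped Classical nonZeroDivisors

/-- W4: the primitive ray class character `(-3 / N 𝔞)` -/
def S_PR : Prop := ∀ (F : Type) [Field F] [NumberField F],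
  ∃ (𝔣 : Ideal (𝓞 F)) (e : InfinitePlace F → ℕ) (ψ : Ideal (𝓞 F) →*₀ ℂ),
    Pool.Agent.R362.HL.IsRay 𝔣 e ψ ∧ 𝔣 ∣ Ideal.span {(3 : 𝓞 F)} ∧
    (∀ 𝔞, ψ 𝔞 = 0 ∨ ψ 𝔞 = 1 ∨ ψ 𝔞 = -1) ∧ (∀ 𝔞, Ideal.absNorm 𝔞 % 3 = 1 → ψ 𝔞 = 1) ∧
    ∀ 𝔞, Ideal.absNorm 𝔞 % 3 = 2 → ψ 𝔞 = -1

/-- W5: there is an inert prime in `F(√-3)/F` -/
def S_NT : Prop := RF.S_A1 → ∀ (F : Type) [Field F] [NumberField F], NoOm F →
  ∃ P : Ideal (𝓞 F), P.IsPrime ∧ P ≠ ⊥ ∧ Ideal.absNorm P % 3 = 2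

/-- the L-function is entire and bounded by a power of the discriminant on `|s - 2| ≤ 2` -/
def S_LB : Prop := ∀ f : ℕ, ∃ C A : ℝ, 0 < C ∧ 0 < A ∧ ∀ (F : Type) [Field F] [NumberField F],
  Module.finrank ℚ F = f → NoOm F → ∃ ψ : Ideal (𝓞 F) →*₀ ℝ, IsX3 F ψ ∧
    ∃ L : ℂ → ℂ, Differentiable ℂ L ∧
      (∀ s : ℂ, 1 < s.re → HasSum (fun 𝔞 : Ideal (𝓞 F) =>
        ((ψ 𝔞 : ℝ) : ℂ) * ((Ideal.absNorm 𝔞 : ℕ) : ℂ) ^ (-s)) (L s)) ∧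
      ∀ s : ℂ, ‖s - 2‖ ≤ 2 → ‖L s‖ ≤ C * |(discr F : ℝ)| ^ A

/-- W6: `S_LB` from W4 and W5 -/
def S_LBof : Prop := S_PR → (∀ (F : Type) [Field F] [NumberField F], NoOm F →
  ∃ P : Ideal (𝓞 F), P.IsPrime ∧ P ≠ ⊥ ∧ Ideal.absNorm P % 3 = 2) → RF.S_RM → S_LB

/-- many squarefree numbers composed of good primes -/
def S_PRIM : Prop := ∀ f : ℕ, 1 ≤ f → ∃ c C : ℝ, 0 < c ∧ 0 < C ∧ ∀ (F : Type) [Field F] [NumberField F],
  Module.finrank ℚ F = f → NoOm F → ∀ X : ℝ, C * |(discr F : ℝ)| ^ C ≤ X →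
    ∃ M : Finset ℕ, (∀ m ∈ M, Squarefree m ∧ (m : ℝ) ≤ X ∧ ∀ p : ℕ, p.Prime → p ∣ m → Gp F p) ∧
      X ^ c ≤ (M.card : ℝ)

/-- W7: `S_PRIM` from the pieces -/
def S_PRIMof : Prop := S_CONV → S_TA → S_LB → RF.S_RM → S_PRIM

/-- a prime which does not stay prime in `L/F` -/
def SpN (F L : Type) [Field F] [NumberField F] [Field L] [NumberField L] [Algebra F L] (p : ℕ) : Prop :=
  p.Prime ∧ ∃ Q Q' : Ideal (𝓞 L), Q.IsPrime ∧ Q'.IsPrime ∧ Q ≠ Q' ∧ ((p : ℕ) : 𝓞 L) ∈ Q ∧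
    Ideal.comap (algebraMap (𝓞 F) (𝓞 L)) Q = Ideal.comap (algebraMap (𝓞 F) (𝓞 L)) Q'

/-- a prime with a factor of norm `2 mod 3` in `F` which stays prime in `L` -/
def SpI (F L : Type) [Field F] [NumberField F] [Field L] [NumberField L] [Algebra F L] (p : ℕ) : Prop :=
  p.Prime ∧ ∃ P : Ideal (𝓞 F), P.IsPrime ∧ ((p : ℕ) : 𝓞 F) ∈ P ∧ Ideal.absNorm P % 3 = 2 ∧
    (Ideal.map (algebraMap (𝓞 F) (𝓞 L)) P).IsPrime

/-- the integers of house at most `H` lie in `F` -/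
def Small (F L : Type) [Field F] [NumberField F] [Field L] [NumberField L] [Algebra F L] (H : ℝ) : Prop :=
  ∀ x : L, IsIntegral ℤ x → (∀ w : InfinitePlace L, w x ≤ H) → ∃ z : F, algebraMap F L z = x

/-- W8: the counting inequality, primes which split in `L/F` -/
def S_CN : Prop := ∀ n : ℕ, 1 ≤ n → ∃ C : ℝ, 0 < C ∧
  ∀ (F L : Type) [Field F] [NumberField F] [Field L] [NumberField L] [Algebra F L],
    Module.finrank ℚ L = n → ∀ X : ℝ, 1 ≤ X → Small F L (C * X ^ C) →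
    ∀ M : Finset ℕ, (∀ m ∈ M, Squarefree m ∧ (m : ℝ) ≤ X ∧ ∀ p : ℕ, p.Prime → p ∣ m → SpN F L p) →
      ∀ N : ℕ, 2 ^ n * √|(discr L : ℝ)| < N →
        (M.card : ℝ) * (Nat.card {c : ClassGroup (𝓞 L) // c ^ 3 = 1} : ℝ) ≤
          ∑ J ∈ Pool.Agent.TH847.LS.FI L N, (1 + Real.log ((N : ℝ) / Ideal.absNorm J)) ^ n

/-- W9: the counting inequality for `K = L(√-3)`, primes which are inert in `L/F` -/
def S_CI : Prop := ∀ n : ℕ, 1 ≤ n → ∃ C : ℝ, 0 < C ∧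
  ∀ (F L K : Type) [Field F] [NumberField F] [Field L] [NumberField L] [Field K] [NumberField K]
    [Algebra F L] [Algebra L K], Module.finrank ℚ L = n → Even (Module.finrank F L) →
    Module.finrank L K = 2 → ∀ ω : K, ω ^ 2 + ω + 1 = 0 → NoOm L →
    ∀ X : ℝ, 1 ≤ X → Small F L (C * X ^ C) →
    ∀ M : Finset ℕ, (∀ m ∈ M, Squarefree m ∧ (m : ℝ) ≤ X ∧ ∀ p : ℕ, p.Prime → p ∣ m → SpI F L p) →
      ∀ N : ℕ, 2 ^ (2 * n) * √|(discr K : ℝ)| < N →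
        (M.card : ℝ) * (Nat.card {c : ClassGroup (𝓞 K) // c ^ 3 = 1} : ℝ) ≤
          ∑ J ∈ Pool.Agent.TH847.LS.FI K N, (1 + Real.log ((N : ℝ) / Ideal.absNorm J)) ^ (2 * n)

/-- the result -/
def S_GE : Prop := ∀ n : ℕ, Even n → 2 ≤ n → ∀ η : ℝ, 0 < η → ∃ δ C : ℝ, 0 < δ ∧ 0 < C ∧
  ∀ (L : Type) [Field L] [NumberField L], Module.finrank ℚ L = n → NoOm L →
    (∀ F : IntermediateField ℚ L, Odd (Module.finrank F L) →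
      |(discr L : ℝ)| ^ η ≤ |(discr F : ℝ)|) →
    (Nat.card {c : ClassGroup (𝓞 L) // c ^ 3 = 1} : ℝ) ≤ C * |(discr L : ℝ)| ^ (1 / 2 - δ : ℝ)

/-- W10: the final assembly -/
def S_GEof : Prop := S_PRIM → S_SUB → S_CN → S_CI → RF.S_REFL → RF.S_DISC → S_GE

end Pool.Agent.K1H79.GE
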