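import Mathlib

/-! # 3-torsion for the fields of degree `2^k`: statements of the pieces (Mathlib only)

Owner helper79.  Project: `|Cl_L[3]| ≤ C |disc L|^(1/2 - δ)` for all fields `L` of degree `2^k` which do
not contain `√-3`, and more generally for all fields of even degree in which the subfields of odd index
have large discriminant. -/

set_option autoImplicit false

namespace Pool.Agent.K1H79.GE

open NumberField

/-- `√-3` is not in `F` -/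
def NoOm (F : Type) [Field F] : Prop := ∀ z : F, z ^ 2 + z + 1 ≠ 0

/-- the prime `p` has a prime factor in `F` whose norm is `2` modulo `3` -/
def Gp (F : Type) [Field F] [NumberField F] (p : ℕ) : Prop :=
  p.Prime ∧ ∃ P : Ideal (𝓞 F), P.IsPrime ∧ ((p : ℕ) : 𝓞 F) ∈ P ∧ Ideal.absNorm P % 3 = 2

/-- all prime factors have a norm which is not `1` modulo `3` -/
def GI (F : Type) [Field F] [NumberField F] (𝔤 : Ideal (𝓞 F)) : Prop :=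
  𝔤 ≠ ⊥ ∧ ∀ P : Ideal (𝓞 F), P.IsPrime → P ∣ 𝔤 → Ideal.absNorm P % 3 ≠ 1

/-- the number of ideals of norm `m` -/
noncomputable def rr (F : Type) [Field F] [NumberField F] (m : ℕ) : ℝ :=
  (Nat.card {𝔞 : Ideal (𝓞 F) // Ideal.absNorm 𝔞 = m} : ℝ)

/-- the sum of `ψ` over the ideals of norm `m` -/
noncomputable def aa (F : Type) [Field F] [NumberField F] (ψ : Ideal (𝓞 F) →*₀ ℝ) (m : ℕ) : ℝ :=
  ∑ᶠ 𝔞 : {𝔞 : Ideal (𝓞 F) // Ideal.absNorm 𝔞 = m}, ψ (𝔞 : Ideal (𝓞 F))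

/-- the number of `GI`-ideals of norm `m` -/
noncomputable def gg (F : Type) [Field F] [NumberField F] (m : ℕ) : ℝ :=
  (Nat.card {𝔤 : Ideal (𝓞 F) // GI F 𝔤 ∧ Ideal.absNorm 𝔤 = m} : ℝ)

/-- the number of pairs of `GI`-ideals with product of norms `m` -/
noncomputable def ee (F : Type) [Field F] [NumberField F] (m : ℕ) : ℝ :=
  ∑ d ∈ m.divisors, gg F d * gg F (m / d)

/-- the properties of the quadratic character `𝔞 ↦ (-3 / N 𝔞)` (primitive version) -/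
def IsX3 (F : Type) [Field F] [NumberField F] (ψ : Ideal (𝓞 F) →*₀ ℝ) : Prop :=
  (∀ 𝔞, ψ 𝔞 = 0 ∨ ψ 𝔞 = 1 ∨ ψ 𝔞 = -1) ∧ (∀ 𝔞, Ideal.absNorm 𝔞 % 3 = 1 → ψ 𝔞 = 1) ∧
    ∀ 𝔞, Ideal.absNorm 𝔞 % 3 = 2 → ψ 𝔞 = -1

/-- W1: the coefficient inequality.  For the ideals: `∑_{𝔟 𝔤 𝔤' = 𝔞} ψ(𝔟) ≥ 1` for all `𝔞 ≠ 0`, where
`𝔤, 𝔤'` run over the `GI`-ideals. -/
def S_CONV : Prop := ∀ (F : Type) [Field F] [NumberField F] (ψ : Ideal (𝓞 F) →*₀ ℝ), IsX3 F ψ →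
  ∀ m : ℕ, 1 ≤ m → rr F m ≤ ∑ d ∈ m.divisors, aa F ψ d * ee F (m / d)

/-- W2: the Taylor coefficients at `s = 2` (pure analysis) -/
def S_TA : Prop := ∀ f : ℕ, 1 ≤ f → ∀ E : ℝ, 0 < E → ∃ c C : ℝ, 0 < c ∧ 0 < C ∧
  ∀ (R : ℝ) (a e : ℕ → ℝ) (L : ℂ → ℂ), 1 ≤ R → Differentiable ℂ L →
    (∀ s : ℂ, 1 < s.re → HasSum (fun m : ℕ => (a m : ℂ) * (m : ℂ) ^ (-s)) (L s)) →
    (∀ s : ℂ, ‖s - 2‖ ≤ 2 → ‖L s‖ ≤ R) →
    a 0 = 0 → e 0 = 0 → (∀ m : ℕ, |a m| ≤ E * (m : ℝ) ^ (1 / 4 : ℝ)) →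
    (∀ m : ℕ, 0 ≤ e m ∧ e m ≤ E * (m : ℝ) ^ (1 / 4 : ℝ)) →
    (∀ m : ℕ, 1 ≤ m → 0 ≤ ∑ d ∈ m.divisors, a d * e (m / d)) →
    (∀ k : ℕ, 1 ≤ k → 1 ≤ ∑ d ∈ (k ^ f).divisors, a d * e (k ^ f / d)) →
    ∀ X : ℝ, C * R ^ C ≤ X → X ^ c ≤ ∑ m ∈ Finset.Icc 1 ⌊X⌋₊, e m

/-- the subfield of `L` generated by the integers of house at most `H` -/
noncomputable def Hs (L : Type) [Field L] [NumberField L] (H : ℝ) : IntermediateField ℚ L :=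
  IntermediateField.adjoin ℚ {x : L | IsIntegral ℤ x ∧ ∀ w : InfinitePlace L, w x ≤ H}

/-- W3: the discriminant of the subfield generated by small integers -/
def S_SUB : Prop := ∀ n : ℕ, ∃ C : ℝ, 0 < C ∧ ∀ (L : Type) [Field L] [NumberField L],
  Module.finrank ℚ L = n → ∀ H : ℝ, 1 ≤ H → |(discr (Hs L H) : ℝ)| ≤ C * H ^ C

end Pool.Agent.K1H79.GE
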