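import Pool.Agent.K1H79.GE.Fin
import Pool.Agent.K1H79.RF.Thm
import Pool.Agent.K1H9.GE.Conv
import Pool.Agent.K1H87.GE.TaylorTA
import Pool.Agent.K1H39.GE.Sub
import Pool.Agent.K1H2.GE.NT
import Pool.Agent.K1H20.GE.LB
import Pool.Agent.K1H26.GE.Prm
import Pool.Agent.K1H21.GE.CN
import Pool.Agent.K1H38.GE.CI

/-! # Assembly of the project GE (W4 as a hypothesis) -/

set_option autoImplicit false

namespace Pool.Agent.K1H79.GE

open NumberField

theorem prim_of (h4 : S_PR) : S_PRIM :=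
  Pool.Agent.K1H26.GE.t_PRIMof Pool.Agent.K1H9.GE.t_CONV Pool.Agent.K1H87.GE.t_TA
    (Pool.Agent.K1H20.GE.t_LBof h4 (Pool.Agent.K1H2.GE.t_NT Pool.Agent.K1H90.CC.t_A1)
      Pool.Agent.K1H33.RM.t_RM) Pool.Agent.K1H33.RM.t_RM

theorem ge_of (h4 : S_PR) : S_GE :=
  t_GEof (prim_of h4) Pool.Agent.K1H39.GE.t_SUB Pool.Agent.K1H21.GE.t_CN Pool.Agent.K1H38.GE.t_CI
    RF.refl RF.t_DISC

/-- the fields of degree `2^k` -/
def S_TWO : Prop := ∀ k : ℕ, 1 ≤ k → ∃ δ C : ℝ, 0 < δ ∧ 0 < C ∧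
  ∀ (L : Type) [Field L] [NumberField L], Module.finrank ℚ L = 2 ^ k → NoOm L →
    (Nat.card {c : ClassGroup (𝓞 L) // c ^ 3 = 1} : ℝ) ≤ C * |(discr L : ℝ)| ^ (1 / 2 - δ : ℝ)

theorem discr_top (L : Type) [Field L] [NumberField L] :
    discr (⊤ : IntermediateField ℚ L) = discr L :=
  discr_eq_discr_of_algEquiv _ IntermediateField.topEquiv

theorem two_of (h : S_GE) : S_TWO := by
  intro k hk
  have hev : Even (2 ^ k) := by
    rw [Nat.even_pow]; exact ⟨even_two, by omega⟩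
  have h2 : 2 ≤ 2 ^ k := by
    calc 2 = 2 ^ 1 := (pow_one 2).symm
      _ ≤ 2 ^ k := Nat.pow_le_pow_right (by norm_num) hk
  obtain ⟨δ, C, hδ, hC, hmain⟩ := h (2 ^ k) hev h2 1 one_pos
  refine ⟨δ, C, hδ, hC, ?_⟩
  intro L _ _ hL hno
  refine hmain L hL hno ?_
  intro F hF
  have h1 : Module.finrank ℚ F * Module.finrank F L = 2 ^ k := by
    rw [Module.finrank_mul_finrank, hL]
  have h3 : Module.finrank F L ∣ 2 ^ k := ⟨_, by rw [← h1, mul_comm]⟩
  obtain ⟨j, hj, hj2⟩ := (Nat.dvd_prime_pow Nat.prime_two).1 h3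
  have h4 : j = 0 := by
    by_contra hne
    rw [hj2] at hF
    exact (Nat.not_odd_iff_even.2 (by rw [Nat.even_pow]; exact ⟨even_two, hne⟩)) hF
  rw [h4, pow_zero] at hj2
  have h5 : F = ⊤ := by
    rw [← IntermediateField.finrank_eq_one_iff_eq_top]
    exact hj2
  subst h5
  rw [discr_top, Real.rpow_one]

end Pool.Agent.K1H79.GE
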