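import Pool.Agent.K1H79.GE.FinA
import Pool.Agent.K1H79.RF.FieldK
import Pool.Agent.H568.GR.Cnb
import Pool.Agent.K1H79.QR.Cnt

/-! # The final assembly -/

set_option autoImplicit false

namespace Pool.Agent.K1H79.GE

open NumberField Filter Pool.Agent.TH847.LS

theorem natAbs_disc (L : Type) [Field L] [NumberField L] : ((discr L).natAbs : ℝ) = |(discr L : ℝ)| := by
  rw [Nat.cast_natAbs]
  push_cast
  rfl

/-- many products of primes of one of the two kinds -/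
theorem many {F L : Type} [Field F] [NumberField F] [Field L] [NumberField L] [Algebra F L] {κ Cd X : ℝ}
    (hCd : ∀ n : ℕ, 1 ≤ n → (n.divisors.card : ℝ) ≤ Cd * (n : ℝ) ^ (κ / 2)) (hCd1 : 1 ≤ Cd) (hX1 : 1 ≤ X)
    (M : Finset ℕ) (hM : ∀ m ∈ M, Squarefree m ∧ (m : ℝ) ≤ X ∧ ∀ p : ℕ, p.Prime → p ∣ m → Gp F p)
    (hc : |(discr L : ℝ)| ^ κ ≤ (M.card : ℝ)) :
    (∃ M1 : Finset ℕ, (∀ m ∈ M1, Squarefree m ∧ (m : ℝ) ≤ X ∧ ∀ p : ℕ, p.Prime → p ∣ m → SpN F L p) ∧
      |(discr L : ℝ)| ^ (κ / 4) / Cd ≤ (M1.card : ℝ)) ∨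
    (∃ M2 : Finset ℕ, (∀ m ∈ M2, Squarefree m ∧ (m : ℝ) ≤ X ∧ ∀ p : ℕ, p.Prime → p ∣ m → SpI F L p) ∧
      |(discr L : ℝ)| ^ (κ / 4) / Cd ≤ (M2.card : ℝ)) := by
  obtain ⟨D, hD⟩ : ∃ D : ℝ, D = |(discr L : ℝ)| := ⟨_, rfl⟩
  have hD1 : 1 ≤ D := by rw [hD]; exact QR.disc_one L
  have hD0 : 0 < D := by linarith
  have hT : (discr L).natAbs ≠ 0 := Int.natAbs_ne_zero.2 (discr_ne_zero L)
  have h1 := QR.coprime_step M (P := fun p => SpN F L p ∨ SpI F L p) (T := (discr L).natAbs) (z := ⌊X⌋₊) hT (by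
    intro a ha
    obtain ⟨h2, h3, h4⟩ := hM a ha
    refine ⟨Nat.pos_of_ne_zero h2.ne_zero, Nat.le_floor h3, h2, fun p hp hpa hpT => ?_⟩
    exact dich (h4 p hp hpa) (fun h => hpT (Int.natCast_dvd.1 h)))
  obtain ⟨M1, M2, hM1, hM2, hM12⟩ := split2 (QR.Bs (fun p => SpN F L p ∨ SpI F L p) (discr L).natAbs ⌊X⌋₊)
    (SpN F L) (SpI F L) X (by
      intro b hb
      obtain ⟨h2, h3, h4, h5⟩ := QR.mem_Bs.1 hb
      exact ⟨h4, (Nat.le_floor_iff (by linarith)).1 h3, fun p hp hpb => (h5 p hp hpb).2⟩)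
  have h2 := hCd (discr L).natAbs (Nat.pos_of_ne_zero hT)
  rw [natAbs_disc] at h2
  rw [← hD] at h2 hc ⊢
  have h3 : (M.card : ℝ) ≤ (Cd * D ^ (κ / 2)) * ((M1.card : ℝ) * (M2.card : ℝ)) := by
    have h4 : M.card ≤ (discr L).natAbs.divisors.card * (M1.card * M2.card) :=
      h1.trans (Nat.mul_le_mul_left _ hM12)
    calc (M.card : ℝ) ≤ (((discr L).natAbs.divisors.card * (M1.card * M2.card) : ℕ) : ℝ) := by exact_mod_cast h4
      _ = ((discr L).natAbs.divisors.card : ℝ) * ((M1.card : ℝ) * (M2.card : ℝ)) := by push_cast; ring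
      _ ≤ _ := mul_le_mul_of_nonneg_right h2 (by positivity)
  have h5 : D ^ κ = D ^ (κ / 2) * (D ^ (κ / 4) * D ^ (κ / 4)) := by
    rw [← Real.rpow_add hD0, ← Real.rpow_add hD0]
    congr 1
    ring
  have h6 : D ^ (κ / 4) * D ^ (κ / 4) ≤ Cd * ((M1.card : ℝ) * (M2.card : ℝ)) := by
    have h7 : D ^ (κ / 2) * (D ^ (κ / 4) * D ^ (κ / 4)) ≤ D ^ (κ / 2) * (Cd * ((M1.card : ℝ) * (M2.card : ℝ))) := by
      rw [← h5]
      refine hc.trans (h3.trans (le_of_eq ?_))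
      ring
    exact le_of_mul_le_mul_left h7 (by positivity)
  by_contra hcon
  push Not at hcon
  obtain ⟨hc1, hc2⟩ := hcon
  have h8 := hc1 M1 hM1
  have h9 := hc2 M2 hM2
  have hCd0 : 0 < Cd := by linarith
  rw [lt_div_iff₀ hCd0] at h8 h9
  have h10 : 0 < D ^ (κ / 4) := by positivity
  have h11 : ((M1.card : ℝ) * Cd) * ((M2.card : ℝ) * Cd) < D ^ (κ / 4) * D ^ (κ / 4) :=
    mul_lt_mul'' h8 h9 (by positivity) (by positivity)
  have h12 : Cd * ((M1.card : ℝ) * (M2.card : ℝ)) ≤ ((M1.card : ℝ) * Cd) * ((M2.card : ℝ) * Cd) := by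
    have : 0 ≤ (M1.card : ℝ) * (M2.card : ℝ) := by positivity
    nlinarith
  linarith

/-- the last step in the first case -/
theorem caseN {D κ Cd C1 m T : ℝ} (hD : 1 ≤ D) (hT : 0 ≤ T) (hCd : 1 ≤ Cd)
    (hm : D ^ (κ / 4) / Cd ≤ m) (h : m * T ≤ C1 * D ^ (1 / 2 + κ / 32)) (hκ : 0 < κ) (hC1 : 0 < C1) :
    T ≤ Cd * C1 * D ^ (1 / 2 - κ / 16) := by
  have hD0 : 0 < D := by linarith
  have hCd0 : 0 < Cd := by linarith
  have h1 : D ^ (κ / 4) * T ≤ Cd * C1 * D ^ (1 / 2 + κ / 32) := by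
    calc D ^ (κ / 4) * T = Cd * (D ^ (κ / 4) / Cd * T) := by field_simp
      _ ≤ Cd * (m * T) := by gcongr
      _ ≤ Cd * (C1 * D ^ (1 / 2 + κ / 32)) := by gcongr
      _ = _ := by ring
  have h2 : D ^ (κ / 4) * (Cd * C1 * D ^ (1 / 2 + κ / 32 - κ / 4)) = Cd * C1 * D ^ (1 / 2 + κ / 32) := by
    have : D ^ (κ / 4) * D ^ (1 / 2 + κ / 32 - κ / 4) = D ^ (1 / 2 + κ / 32) := by
      rw [← Real.rpow_add hD0]
      congr 1
      ring
    calc _ = Cd * C1 * (D ^ (κ / 4) * D ^ (1 / 2 + κ / 32 - κ / 4)) := by ring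
      _ = _ := by rw [this]
  have h3 : T ≤ Cd * C1 * D ^ (1 / 2 + κ / 32 - κ / 4) := by
    rw [← h2] at h1
    exact le_of_mul_le_mul_left h1 (by positivity)
  refine h3.trans ?_
  apply mul_le_mul_of_nonneg_left _ (by positivity)
  exact Real.rpow_le_rpow_of_exponent_le hD (by linarith)

/-- the last step in the second case -/
theorem caseI {D DK κ Cd C2 m T TK a b : ℝ} (hD : 1 ≤ D) (hT : 0 ≤ T) (hTK : 0 ≤ TK) (hCd : 1 ≤ Cd)
    (hm : D ^ (κ / 4) / Cd ≤ m) (h : m * TK ≤ C2 * DK ^ (1 / 2 + κ / 32)) (hκ : 0 < κ) (hκ1 : κ ≤ 1)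
    (hC2 : 0 < C2) (hDK0 : 0 ≤ DK) (ha : 1 ≤ a) (hDK : DK ≤ a * D ^ 2) (hb : 0 < b) (hr : T ^ 2 ≤ b * TK) :
    T ≤ (b * (Cd * C2 * a) + 1) * D ^ (1 / 2 - κ / 16) := by
  have hD0 : 0 < D := by linarith
  have hCd0 : 0 < Cd := by linarith
  have h0 : DK ^ (1 / 2 + κ / 32) ≤ a * D ^ (1 + κ / 16) := by
    calc DK ^ (1 / 2 + κ / 32) ≤ (a * D ^ 2) ^ (1 / 2 + κ / 32) :=
          Real.rpow_le_rpow hDK0 hDK (by positivity)
      _ = a ^ (1 / 2 + κ / 32) * (D ^ 2) ^ (1 / 2 + κ / 32) := Real.mul_rpow (by positivity) (by positivity)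
      _ ≤ a ^ (1 : ℝ) * D ^ (1 + κ / 16) := by
        apply mul_le_mul
        · exact Real.rpow_le_rpow_of_exponent_le ha (by linarith)
        · rw [← Real.rpow_natCast, ← Real.rpow_mul hD0.le]
          apply le_of_eq
          congr 1
          push_cast
          ring
        · positivity
        · positivity
      _ = _ := by rw [Real.rpow_one]
  have h1 : D ^ (κ / 4) * TK ≤ Cd * C2 * a * D ^ (1 + κ / 16) := by
    calc D ^ (κ / 4) * TK = Cd * (D ^ (κ / 4) / Cd * TK) := by field_simp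
      _ ≤ Cd * (m * TK) := by gcongr
      _ ≤ Cd * (C2 * DK ^ (1 / 2 + κ / 32)) := by gcongr
      _ ≤ Cd * (C2 * (a * D ^ (1 + κ / 16))) := by gcongr
      _ = _ := by ring
  have h2 : D ^ (κ / 4) * (Cd * C2 * a * D ^ (1 + κ / 16 - κ / 4)) = Cd * C2 * a * D ^ (1 + κ / 16) := by
    have : D ^ (κ / 4) * D ^ (1 + κ / 16 - κ / 4) = D ^ (1 + κ / 16) := by
      rw [← Real.rpow_add hD0]
      congr 1
      ring
    calc _ = Cd * C2 * a * (D ^ (κ / 4) * D ^ (1 + κ / 16 - κ / 4)) := by ring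
      _ = _ := by rw [this]
  have h3 : TK ≤ Cd * C2 * a * D ^ (1 + κ / 16 - κ / 4) := by
    rw [← h2] at h1
    exact le_of_mul_le_mul_left h1 (by positivity)
  have h4 : T ^ 2 ≤ ((b * (Cd * C2 * a) + 1) * D ^ (1 / 2 - κ / 16)) ^ 2 := by
    have h5 : D ^ (1 + κ / 16 - κ / 4) ≤ (D ^ (1 / 2 - κ / 16)) ^ 2 := by
      rw [← Real.rpow_natCast (D ^ (1 / 2 - κ / 16)), ← Real.rpow_mul hD0.le]
      apply Real.rpow_le_rpow_of_exponent_le hD
      push_cast
      linarith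
    have h6 : b * (Cd * C2 * a) ≤ (b * (Cd * C2 * a) + 1) ^ 2 := by
      have : 0 < b * (Cd * C2 * a) := by positivity
      nlinarith
    calc T ^ 2 ≤ b * TK := hr
      _ ≤ b * (Cd * C2 * a * D ^ (1 + κ / 16 - κ / 4)) := by gcongr
      _ = b * (Cd * C2 * a) * D ^ (1 + κ / 16 - κ / 4) := by ring
      _ ≤ (b * (Cd * C2 * a) + 1) ^ 2 * (D ^ (1 / 2 - κ / 16)) ^ 2 := by
        apply mul_le_mul h6 h5 (by positivity) (by positivity)
      _ = _ := by ring
  exact (pow_le_pow_iff_left₀ hT (by positivity) two_ne_zero).1 h4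

theorem t_GEof : S_GEof := by
  intro hPRIM hSUB hCN hCI hREFL hDISC n hev hn2 η hη
  obtain ⟨c, CP, hc, hCP, hprim⟩ := prim_unif hPRIM n
  obtain ⟨CS0, hCS0, hsub⟩ := hSUB n
  obtain ⟨CN, hCN0, hcn⟩ := hCN n (by omega)
  obtain ⟨CI, hCI0, hci⟩ := hCI n (by omega)
  obtain ⟨CC, hCC⟩ : ∃ CC : ℝ, CC = max (max CN CI) 1 := ⟨_, rfl⟩
  have hCC1 : 1 ≤ CC := by rw [hCC]; exact le_max_right _ _
  have hCCN : CN ≤ CC := by rw [hCC]; exact (le_max_left _ _).trans (le_max_left _ _)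
  have hCCI : CI ≤ CC := by rw [hCC]; exact (le_max_right _ _).trans (le_max_left _ _)
  obtain ⟨CS, hCS⟩ : ∃ CS : ℝ, CS = max CS0 1 := ⟨_, rfl⟩
  have hCS1 : 1 ≤ CS := by rw [hCS]; exact le_max_right _ _
  have hCS2 : CS0 ≤ CS := by rw [hCS]; exact le_max_left _ _
  obtain ⟨Λ, hΛ⟩ : ∃ Λ : ℝ, Λ = 4 * CC * CS * CP := ⟨_, rfl⟩
  have hΛ1 : 1 ≤ Λ := by
    have h1 : 1 ≤ CC * CS := one_le_mul_of_one_le_of_one_le hCC1 hCS1
    have h2 : 1 ≤ CC * CS * CP := one_le_mul_of_one_le_of_one_le h1 hCP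
    rw [hΛ]
    nlinarith
  obtain ⟨β, hβ⟩ : ∃ β : ℝ, β = min η 1 / (2 * CS * Λ ^ n) := ⟨_, rfl⟩
  have hη1 : 0 < min η 1 := lt_min hη one_pos
  have hβ0 : 0 < β := by rw [hβ]; positivity
  have hβΛ : ∀ i ≤ n, β * Λ ^ i * CS ≤ η / 2 := by
    intro i hi
    have h1 : Λ ^ i ≤ Λ ^ n := pow_le_pow_right₀ hΛ1 hi
    calc β * Λ ^ i * CS ≤ β * Λ ^ n * CS := by gcongr
      _ = min η 1 / 2 := by rw [hβ]; field_simp
      _ ≤ η / 2 := by gcongr; exact min_le_left _ _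
  obtain ⟨κ, hκ⟩ : ∃ κ : ℝ, κ = min (β * c) 1 := ⟨_, rfl⟩
  have hκ0 : 0 < κ := by rw [hκ]; exact lt_min (by positivity) one_pos
  have hκ1 : κ ≤ 1 := by rw [hκ]; exact min_le_right _ _
  obtain ⟨Cd, hCd1, hCd⟩ := Pool.Agent.H568.GR.dvb (κ / 2) (by positivity)
  obtain ⟨C1, hC10, hC1⟩ := Pool.Agent.Y159.PT.W_bound n hn2 (κ / 32) (by positivity)
  obtain ⟨C2, hC20, hC2⟩ := Pool.Agent.Y159.PT.W_bound (2 * n) (by omega) (κ / 32) (by positivity)
  have e1 : ∀ᶠ x : ℝ in atTop, CS < x ^ (η / 2) := (tendsto_rpow_atTop (by positivity)).eventually_gt_atTop _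
  have e2 : ∀ᶠ x : ℝ in atTop, CC ^ 2 < x ^ β := (tendsto_rpow_atTop hβ0).eventually_gt_atTop _
  have e3 : ∀ᶠ x : ℝ in atTop, CP * CS ^ CP < x ^ β := (tendsto_rpow_atTop hβ0).eventually_gt_atTop _
  obtain ⟨D0, hD0⟩ := eventually_atTop.1 (e1.and (e2.and e3))
  have hlarge : QR.SavE n 3 (1 / 2 - κ / 16) (fun L _ _ => D0 ≤ |(discr L : ℝ)| ∧ NoOm L ∧
      ∀ F : IntermediateField ℚ L, Odd (Module.finrank F L) → |(discr L : ℝ)| ^ η ≤ |(discr F : ℝ)|) := by
    refine ⟨Cd * C1 + (2 * 27 ^ n * (Cd * C2 * 3 ^ n) + 1), by positivity, ?_⟩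
    rintro L _ _ hn ⟨hge, hO, hF⟩
    obtain ⟨D, hD⟩ : ∃ D : ℝ, D = |(discr L : ℝ)| := ⟨_, rfl⟩
    have hD1 : 1 ≤ D := by rw [hD]; exact QR.disc_one L
    have hDpos : 0 < D := by linarith
    obtain ⟨g1, g2, g3⟩ := hD0 _ hge
    rw [← hD] at g1 g2 g3 hF
    obtain ⟨b, hb⟩ : ∃ b : ℕ → ℝ, ∀ i, b i = β * Λ ^ i := ⟨_, fun _ => rfl⟩
    have hbmono : ∀ i j, i ≤ j → b i ≤ b j := by
      intro i j hij
      rw [hb, hb]
      have := pow_le_pow_right₀ hΛ1 hij
      gcongr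
    have hb0 : ∀ i, β ≤ b i := by
      intro i
      have := hbmono 0 i (Nat.zero_le _)
      rwa [hb 0, pow_zero, mul_one] at this
    have hbs : ∀ i, b (i + 1) = 4 * CC * CS * CP * b i := by
      intro i
      rw [hb, hb, pow_succ, hΛ]
      ring
    obtain ⟨i, hi, hchain⟩ := chain L hn (fun i => D ^ b i)
      (fun i j hij => Real.rpow_le_rpow_of_exponent_le hD1 (hbmono i j hij))
    obtain ⟨F, hFd⟩ : ∃ F : IntermediateField ℚ L, F = Hs L (D ^ b i) := ⟨_, rfl⟩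
    have hdF : |(discr F : ℝ)| ≤ CS * D ^ (b i * CS) := by
      have key : ∀ F : IntermediateField ℚ L, F = Hs L (D ^ b i) →
          |(discr F : ℝ)| ≤ CS0 * (D ^ b i) ^ CS0 := by
        rintro F rfl
        exact hsub L hn (D ^ b i) (Real.one_le_rpow hD1 (hβ0.le.trans (hb0 i)))
      refine (key F hFd).trans ?_
      have h2 : 1 ≤ D ^ b i := Real.one_le_rpow hD1 (hβ0.le.trans (hb0 i))
      calc CS0 * (D ^ b i) ^ CS0 ≤ CS * (D ^ b i) ^ CS :=
            mul_le_mul hCS2 (Real.rpow_le_rpow_of_exponent_le h2 hCS2) (by positivity) (by positivity)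
        _ = _ := by rw [← Real.rpow_mul hDpos.le]
    have hbi0 : 0 < b i := hβ0.trans_le (hb0 i)
    -- the degree of `L/F` is even
    have hevF : Even (Module.finrank F L) := by
      rcases Nat.even_or_odd (Module.finrank F L) with h | h
      · exact h
      · exfalso
        have h1 := (hF F h).trans hdF
        have h2 : D ^ (b i * CS) ≤ D ^ (η / 2) := by
          apply Real.rpow_le_rpow_of_exponent_le hD1
          rw [hb]
          exact hβΛ i hi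
        have h3 : D ^ η = D ^ (η / 2) * D ^ (η / 2) := by
          rw [← Real.rpow_add hDpos]
          congr 1
          ring
        have h4 : D ^ (η / 2) * D ^ (η / 2) ≤ CS * D ^ (η / 2) := by
          rw [← h3]
          exact h1.trans (by gcongr)
        have h5 := le_of_mul_le_mul_right h4 (by positivity)
        linarith
    -- the parameter `X`
    obtain ⟨X, hX⟩ : ∃ X : ℝ, X = (D ^ b (i + 1) / CC) ^ (1 / CC) := ⟨_, rfl⟩
    have hCC0 : 0 < CC := by linarith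
    have hDb : CC ^ 2 ≤ D ^ b (i + 1) :=
      g2.le.trans (Real.rpow_le_rpow_of_exponent_le hD1 (hb0 _))
    have hXlow : D ^ (2 * CS * CP * b i) ≤ X := by
      have h1 : D ^ (2 * CC * CS * CP * b i) ≤ D ^ b (i + 1) / CC := by
        rw [le_div_iff₀ hCC0]
        have h2 : D ^ b (i + 1) = D ^ (2 * CC * CS * CP * b i) * D ^ (2 * CC * CS * CP * b i) := by
          rw [← Real.rpow_add hDpos, hbs]
          congr 1
          ring
        have h3 : CC ≤ D ^ (2 * CC * CS * CP * b i) := by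
          have h4 : CC ^ 2 ≤ (D ^ (2 * CC * CS * CP * b i)) ^ 2 := by
            rw [sq (D ^ _), ← h2]
            exact hDb
          exact (pow_le_pow_iff_left₀ hCC0.le (by positivity) two_ne_zero).1 h4
        rw [h2]
        gcongr
      calc D ^ (2 * CS * CP * b i) = (D ^ (2 * CC * CS * CP * b i)) ^ (1 / CC) := by
            rw [← Real.rpow_mul hDpos.le]
            congr 1
            field_simp
        _ ≤ X := by
            rw [hX]
            exact Real.rpow_le_rpow (by positivity) h1 (by positivity)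
    have hCSCP : 1 ≤ CS * CP := one_le_mul_of_one_le_of_one_le hCS1 hCP
    have hXb : D ^ β ≤ X := by
      refine le_trans (Real.rpow_le_rpow_of_exponent_le hD1 ?_) hXlow
      have := hb0 i
      nlinarith
    have hX1 : 1 ≤ X := (Real.one_le_rpow hD1 hβ0.le).trans hXb
    have hXC : CC * X ^ CC = D ^ b (i + 1) := by
      rw [hX, ← Real.rpow_mul (by positivity), one_div_mul_cancel hCC0.ne', Real.rpow_one,
        mul_div_cancel₀ _ hCC0.ne']
    have hsm : Small F L (D ^ b (i + 1)) := by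
      have := @small_Hs L _ _ (D ^ b (i + 1))
      rw [← hchain, ← hFd] at this
      exact this
    have hsmC : ∀ C : ℝ, 0 < C → C ≤ CC → Small F L (C * X ^ C) := by
      intro C hC0 hC
      refine hsm.mono ?_
      rw [← hXC]
      exact mul_le_mul hC (Real.rpow_le_rpow_of_exponent_le hX1 hC) (by positivity) hCC0.le
    have hFfin : Module.finrank ℚ F ≤ n := by
      exact (LinearMap.finrank_le_finrank_of_injective (f := F.val.toLinearMap) F.val.injective).trans hn.le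
    obtain ⟨M, hM, hMc⟩ := hprim (Module.finrank ℚ F) Module.finrank_pos hFfin F rfl (hO.sub F) X (by
      have hCP0 : 0 < CP := by linarith
      calc CP * |(discr F : ℝ)| ^ CP ≤ CP * (CS * D ^ (b i * CS)) ^ CP := by gcongr
        _ = (CP * CS ^ CP) * D ^ (b i * CS * CP) := by
            rw [Real.mul_rpow (by positivity) (by positivity), ← Real.rpow_mul hDpos.le]
            ring
        _ ≤ D ^ β * D ^ (b i * CS * CP) := by gcongr
        _ ≤ D ^ (b i * (CS * CP)) * D ^ (b i * CS * CP) := by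
            apply mul_le_mul_of_nonneg_right _ (by positivity)
            apply Real.rpow_le_rpow_of_exponent_le hD1
            have := hb0 i
            nlinarith
        _ = D ^ (2 * CS * CP * b i) := by
            rw [← Real.rpow_add hDpos]
            congr 1
            ring
        _ ≤ X := hXlow)
    have hMκ : D ^ κ ≤ (M.card : ℝ) := by
      refine le_trans ?_ hMc
      calc D ^ κ ≤ D ^ (β * c) := by
            apply Real.rpow_le_rpow_of_exponent_le hD1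
            rw [hκ]
            exact min_le_left _ _
        _ = (D ^ β) ^ c := by rw [Real.rpow_mul hDpos.le]
        _ ≤ X ^ c := Real.rpow_le_rpow (by positivity) hXb hc.le
    have hT0 : (0 : ℝ) ≤ (Nat.card {c : ClassGroup (𝓞 L) // c ^ 3 = 1} : ℝ) := Nat.cast_nonneg _
    rcases many (F := F) (L := L) hCd hCd1 hX1 M hM (by rw [← hD]; exact hMκ) with
      ⟨M1, hM1, hM1c⟩ | ⟨M2, hM2, hM2c⟩
    · obtain ⟨N, hN, hW⟩ := hC1 L hn
      rw [natAbs_disc] at hW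
      have h1 := (hcn F L hn X hX1 (hsmC CN hCN0 hCCN) M1 hM1 N hN).trans hW
      rw [← hD] at h1 hM1c ⊢
      refine (caseN hD1 hT0 hCd1 hM1c h1 hκ0 hC10).trans ?_
      apply mul_le_mul_of_nonneg_right _ (by positivity)
      have : 0 ≤ 2 * 27 ^ n * (Cd * C2 * 3 ^ n) + 1 := by positivity
      linarith
    · obtain ⟨K, hK1, hK2, hK3, hK4, ω, hω⟩ := RF.exists_K L hO
      have hKn : Module.finrank ℚ K = 2 * n := by
        rw [← Module.finrank_mul_finrank ℚ L K, hK4, hn, mul_comm]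
      obtain ⟨N, hN, hW⟩ := hC2 K hKn
      rw [natAbs_disc] at hW
      have h1 := (hci F L K hn hevF hK4 ω hω hO X hX1 (hsmC CI hCI0 hCCI) M2 hM2 N hN).trans hW
      have h2 := (hDISC L K hK4 ω hω hO).2
      rw [hn] at h2
      have h3 := hREFL L K hK4 ω hω hO
      rw [hn] at h3
      have h4 : ((Nat.card {c : ClassGroup (𝓞 L) // c ^ 3 = 1} : ℝ)) ^ 2 ≤
          2 * 27 ^ n * (Nat.card {c : ClassGroup (𝓞 K) // c ^ 3 = 1} : ℝ) := by
        exact_mod_cast h3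
      rw [← hD] at hM2c h2 ⊢
      refine (caseI hD1 hT0 (Nat.cast_nonneg _) hCd1 hM2c h1 hκ0 hκ1 hC20 (abs_nonneg _)
        (one_le_pow₀ (by norm_num)) h2 (by positivity) h4).trans ?_
      apply mul_le_mul_of_nonneg_right _ (by positivity)
      have : 0 ≤ Cd * C1 := by positivity
      linarith
  obtain ⟨C, hC, h⟩ := hlarge.or (QR.SavE.small' n 3 hn2 (1 / 2 - κ / 16) D0)
  refine ⟨κ / 16, C, by positivity, hC, ?_⟩
  intro L _ _ hn hO hF
  refine h L hn ?_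
  rcases le_or_gt D0 |(discr L : ℝ)| with h1 | h1
  · exact Or.inl ⟨h1, hO, hF⟩
  · exact Or.inr h1

end Pool.Agent.K1H79.GE
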