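import Pool.Agent.K1H79.GE.StmB
import Pool.Agent.K1H2.RF.Pri

/-! # Preparations for the assembly: dichotomy of the primes, chain of subfields -/

set_option autoImplicit false

namespace Pool.Agent.K1H79.GE

open NumberField

/-- the two kinds of good primes -/
theorem dich {F L : Type} [Field F] [NumberField F] [Field L] [NumberField L] [Algebra F L] {p : ℕ}
    (hp : Gp F p) (hpD : ¬ (p : ℤ) ∣ discr L) : SpN F L p ∨ SpI F L p := by
  obtain ⟨hpp, P, hP, hpP, hN⟩ := hp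
  by_cases hI : (Ideal.map (algebraMap (𝓞 F) (𝓞 L)) P).IsPrime
  · exact Or.inr ⟨hpp, P, hP, hpP, hN, hI⟩
  left
  have hPb : P ≠ ⊥ := by
    rintro rfl
    rw [Ideal.mem_bot] at hpP
    exact hpp.ne_zero (by exact_mod_cast hpP)
  have hPm : P.IsMaximal := hP.isMaximal hPb
  have hne : Ideal.map (algebraMap (𝓞 F) (𝓞 L)) P ≠ ⊤ := by
    obtain ⟨Q, hQ, hQP⟩ := Ideal.exists_ideal_over_maximal_of_isIntegral (S := 𝓞 L) P (by
      rw [(RingHom.injective_iff_ker_eq_bot _).1 (FaithfulSMul.algebraMap_injective (𝓞 F) (𝓞 L))]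
      exact bot_le)
    intro h
    apply hQ.ne_top
    rw [eq_top_iff, ← h, Ideal.map_le_iff_le_comap, hQP]
  obtain ⟨Q, hQm, hQle⟩ := Ideal.exists_le_maximal _ hne
  have hQp := hQm.isPrime
  have hpm : ((p : ℕ) : 𝓞 L) ∈ Ideal.map (algebraMap (𝓞 F) (𝓞 L)) P := by
    have := Ideal.mem_map_of_mem (algebraMap (𝓞 F) (𝓞 L)) hpP
    rwa [map_natCast] at this
  have hpQ : ((p : ℕ) : 𝓞 L) ∈ Q := hQle hpm
  have h2 := Pool.Agent.K1H2.RF.not_le_sq hpp hpD Q hpQ
  obtain ⟨J, hJ⟩ := Ideal.dvd_iff_le.2 hQle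
  have hJt : J ≠ ⊤ := by
    intro hJt
    apply hI
    rw [hJ, hJt, Ideal.mul_top]
    exact hQp
  obtain ⟨Q', hQ'm, hQ'le⟩ := Ideal.exists_le_maximal _ hJt
  have hQ'p := hQ'm.isPrime
  have hQQ' : Q ≠ Q' := by
    rintro rfl
    apply h2
    rw [Ideal.span_le, Set.singleton_subset_iff, SetLike.mem_coe, pow_two]
    rw [hJ] at hpm
    exact Ideal.mul_mono le_rfl hQ'le hpm
  have hc : Ideal.comap (algebraMap (𝓞 F) (𝓞 L)) Q = P := by
    refine (hPm.eq_of_le ?_ ?_).symm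
    · rw [Ne, Ideal.comap_eq_top_iff]
      exact hQm.ne_top
    · rw [← Ideal.map_le_iff_le_comap]
      exact hQle
  have hc' : Ideal.comap (algebraMap (𝓞 F) (𝓞 L)) Q' = P := by
    refine (hPm.eq_of_le ?_ ?_).symm
    · rw [Ne, Ideal.comap_eq_top_iff]
      exact hQ'm.ne_top
    · rw [← Ideal.map_le_iff_le_comap, hJ]
      exact Ideal.mul_le_right.trans hQ'le
  exact ⟨hpp, Q, Q', hQp, hQ'p, hQQ', hpQ, hc.trans hc'.symm⟩

/-- splitting the squarefree numbers according to two kinds of primes -/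
theorem split2 (B : Finset ℕ) (P1 P2 : ℕ → Prop) (z : ℝ)
    (hB : ∀ b ∈ B, Squarefree b ∧ (b : ℝ) ≤ z ∧ ∀ p : ℕ, p.Prime → p ∣ b → P1 p ∨ P2 p) :
    ∃ M1 M2 : Finset ℕ,
      (∀ m ∈ M1, Squarefree m ∧ (m : ℝ) ≤ z ∧ ∀ p : ℕ, p.Prime → p ∣ m → P1 p) ∧
      (∀ m ∈ M2, Squarefree m ∧ (m : ℝ) ≤ z ∧ ∀ p : ℕ, p.Prime → p ∣ m → P2 p) ∧
      B.card ≤ M1.card * M2.card := by
  classical
  obtain ⟨f, hf⟩ : ∃ f : ℕ → ℕ, ∀ b, f b = ∏ p ∈ b.primeFactors with P1 p, p := ⟨_, fun _ => rfl⟩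
  obtain ⟨g, hg⟩ : ∃ g : ℕ → ℕ, ∀ b, g b = ∏ p ∈ b.primeFactors with ¬ P1 p, p := ⟨_, fun _ => rfl⟩
  have hfg : ∀ b ∈ B, f b * g b = b := by
    intro b hb
    rw [hf, hg, Finset.prod_filter_mul_prod_filter_not]
    exact Nat.prod_primeFactors_of_squarefree (hB b hb).1
  have hpf : ∀ (b : ℕ) (q : ℕ) (s : Finset ℕ), s ⊆ b.primeFactors → q.Prime → q ∣ ∏ p ∈ s, p → q ∈ s := by
    intro b q s hs hq hqd
    obtain ⟨p, hp, hqp⟩ := (Prime.dvd_finsetProd_iff hq.prime _).1 hqd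
    have hpp : p.Prime := Nat.prime_of_mem_primeFactors (hs hp)
    rw [(Nat.prime_dvd_prime_iff_eq hq hpp).1 hqp]
    exact hp
  refine ⟨B.image f, B.image g, ?_, ?_, ?_⟩
  · intro m hm
    obtain ⟨b, hb, rfl⟩ := Finset.mem_image.1 hm
    obtain ⟨h1, h2, h3⟩ := hB b hb
    have hd : f b ∣ b := ⟨g b, (hfg b hb).symm⟩
    refine ⟨h1.squarefree_of_dvd hd, ?_, ?_⟩
    · have := Nat.le_of_dvd (Nat.pos_of_ne_zero h1.ne_zero) hd
      exact (by exact_mod_cast this : ((f b : ℕ) : ℝ) ≤ b).trans h2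
    · intro p hp hpd
      rw [hf] at hpd
      have := hpf b p _ (Finset.filter_subset _ _) hp hpd
      exact (Finset.mem_filter.1 this).2
  · intro m hm
    obtain ⟨b, hb, rfl⟩ := Finset.mem_image.1 hm
    obtain ⟨h1, h2, h3⟩ := hB b hb
    have hd : g b ∣ b := ⟨f b, by rw [mul_comm]; exact (hfg b hb).symm⟩
    refine ⟨h1.squarefree_of_dvd hd, ?_, ?_⟩
    · have := Nat.le_of_dvd (Nat.pos_of_ne_zero h1.ne_zero) hd
      exact (by exact_mod_cast this : ((g b : ℕ) : ℝ) ≤ b).trans h2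
    · intro p hp hpd
      rw [hg] at hpd
      have := hpf b p _ (Finset.filter_subset _ _) hp hpd
      rw [Finset.mem_filter] at this
      exact (h3 p hp (Nat.dvd_of_mem_primeFactors this.1)).resolve_left this.2
  · rw [← Finset.card_product]
    apply Finset.card_le_card_of_injOn (fun b => (f b, g b))
    · intro b hb
      simp only [Finset.coe_product, Set.mem_prod, Finset.mem_coe]
      exact ⟨Finset.mem_image_of_mem f hb, Finset.mem_image_of_mem g hb⟩
    · intro b hb b' hb' h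
      simp only [Prod.mk.injEq] at h
      rw [← hfg b hb, ← hfg b' hb', h.1, h.2]

theorem Hs_mono (L : Type) [Field L] [NumberField L] {H H' : ℝ} (h : H ≤ H') : Hs L H ≤ Hs L H' := by
  unfold Hs
  apply IntermediateField.adjoin.mono
  rintro x ⟨h1, h2⟩
  exact ⟨h1, fun w => (h2 w).trans h⟩

/-- pigeonhole in the chain of subfields -/
theorem chain {n : ℕ} (L : Type) [Field L] [NumberField L] (hn : Module.finrank ℚ L = n) (H : ℕ → ℝ)
    (hH : Monotone H) : ∃ i ≤ n, Hs L (H i) = Hs L (H (i + 1)) := by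
  by_contra hcon
  push Not at hcon
  have h : ∀ i ≤ n, i + 1 ≤ Module.finrank ℚ (Hs L (H i)) := by
    intro i
    induction i with
    | zero =>
      intro _
      exact Module.finrank_pos
    | succ i ih =>
      intro hi
      have h1 := ih (by omega)
      have hle : Hs L (H i) ≤ Hs L (H (i + 1)) := Hs_mono L (hH (by omega))
      by_contra h2
      apply hcon i (by omega)
      exact IntermediateField.eq_of_le_of_finrank_le hle (by omega)
  have h1 := h n le_rfl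
  have h2 : Module.finrank ℚ (Hs L (H n)) ≤ n := by
    exact (LinearMap.finrank_le_finrank_of_injective (f := (Hs L (H n)).val.toLinearMap)
      (Hs L (H n)).val.injective).trans hn.le
  omega

theorem small_Hs {L : Type} [Field L] [NumberField L] {H : ℝ} : Small (Hs L H) L H := by
  intro x h1 h2
  have : x ∈ Hs L H := IntermediateField.subset_adjoin _ _ ⟨h1, h2⟩
  exact ⟨⟨x, this⟩, rfl⟩

theorem Small.mono {F L : Type} [Field F] [NumberField F] [Field L] [NumberField L] [Algebra F L] {H H' : ℝ}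
    (h : Small F L H) (hH : H' ≤ H) : Small F L H' :=
  fun x h1 h2 => h x h1 fun w => (h2 w).trans hH

theorem NoOm.sub {L : Type} [Field L] [NumberField L] (h : NoOm L) (F : IntermediateField ℚ L) : NoOm F := by
  intro z hz
  apply h (z : L)
  have := congrArg (fun t : F => (t : L)) hz
  simpa using this

theorem disc_one' (F : Type) [Field F] [NumberField F] : 1 ≤ |(discr F : ℝ)| := QR.disc_one F

/-- uniform constants in `S_PRIM` -/
theorem prim_unif (h : S_PRIM) (n : ℕ) : ∃ c C : ℝ, 0 < c ∧ 1 ≤ C ∧ ∀ f : ℕ, 1 ≤ f → f ≤ n →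
    ∀ (F : Type) [Field F] [NumberField F], Module.finrank ℚ F = f → NoOm F → ∀ X : ℝ,
      C * |(discr F : ℝ)| ^ C ≤ X →
      ∃ M : Finset ℕ, (∀ m ∈ M, Squarefree m ∧ (m : ℝ) ≤ X ∧ ∀ p : ℕ, p.Prime → p ∣ m → Gp F p) ∧
        X ^ c ≤ (M.card : ℝ) := by
  induction n with
  | zero => exact ⟨1, 1, one_pos, le_rfl, fun f h1 h2 => by omega⟩
  | succ n ih =>
    obtain ⟨c1, C1, hc1, hC1, h1⟩ := ih
    obtain ⟨c2, C2, hc2, hC2, h2⟩ := h (n + 1) (by omega)
    refine ⟨min c1 c2, max C1 C2, lt_min hc1 hc2, hC1.trans (le_max_left _ _), ?_⟩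
    intro f hf1 hf2 F _ _ hF hO X hX
    have hD := disc_one' F
    have hm1 : 1 ≤ max C1 C2 := hC1.trans (le_max_left _ _)
    have hX1 : 1 ≤ X := by
      refine le_trans ?_ hX
      have : 1 ≤ |(discr F : ℝ)| ^ (max C1 C2) := Real.one_le_rpow hD (by linarith)
      nlinarith
    rcases Nat.lt_or_ge n f with h3 | h3
    · obtain ⟨M, hM1, hM2⟩ := h2 F (by omega) hO X (by
        refine le_trans ?_ hX
        exact mul_le_mul (le_max_right _ _) (Real.rpow_le_rpow_of_exponent_le hD (le_max_right _ _))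
          (by positivity) (by linarith))
      exact ⟨M, hM1, (Real.rpow_le_rpow_of_exponent_le hX1 (min_le_right _ _)).trans hM2⟩
    · obtain ⟨M, hM1, hM2⟩ := h1 f hf1 h3 F hF hO X (by
        refine le_trans ?_ hX
        exact mul_le_mul (le_max_left _ _) (Real.rpow_le_rpow_of_exponent_le hD (le_max_left _ _))
          (by positivity) (by linarith))
      exact ⟨M, hM1, (Real.rpow_le_rpow_of_exponent_le hX1 (min_le_left _ _)).trans hM2⟩

end Pool.Agent.K1H79.GE
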