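import Pool.Agent.K1H79.GE.All
import Pool.Agent.K1H70.PR.Main

/-! # The closed theorems of the project GE -/

set_option autoImplicit false

namespace Pool.Agent.K1H79.GE

theorem ge : S_GE := ge_of Pool.Agent.K1H70.PR.t_PR

theorem prim : S_PRIM := prim_of Pool.Agent.K1H70.PR.t_PR

theorem two : S_TWO := two_of ge

end Pool.Agent.K1H79.GE
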